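import Pool.Agent.H25.VT.Spec

/-!
# VT, part INT: the interpolation step
-/

set_option autoImplicit false

open MeasureTheory
open scoped ENNReal

namespace Pool.Agent.Helper29.VT.INT

open Pool.Agent.H25.VT

lemma measurable_eta {n : ℕ} (j : ℕ) (m : ℝ) : Measurable (fun x : E n => eta j m x) := by
  unfold eta
  refine ENNReal.measurable_ofReal.comp ?_
  refine Measurable.const_mul ?_ _
  refine Measurable.pow_const ?_ _
  exact (measurable_norm.const_mul _).const_add _

lemma eta_mul {n : ℕ} (j : ℕ) (m R : ℝ) (x : E n) :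
    eta j m x * ENNReal.ofReal ((1 + (2 : ℝ) ^ j * ‖x‖) ^ R) = eta j (m - R) x := by
  unfold eta
  have h1 : 0 < 1 + (2 : ℝ) ^ j * ‖x‖ := by positivity
  rw [← ENNReal.ofReal_mul (by positivity), mul_assoc, ← Real.rpow_add h1]
  congr 3
  ring

lemma pow_le (B : ℝ≥0∞) (j : ℕ) (h1 : ENNReal.ofReal ((2 : ℝ)⁻¹ ^ j) ≤ B) (h2 : B ≤ 1) (s t : ℝ) :
    B ^ s ≤ B ^ t * ENNReal.ofReal ((2 : ℝ) ^ ((j : ℝ) * |t - s|)) := by
  have hpos : (0 : ℝ) < (2 : ℝ)⁻¹ ^ j := by positivity
  have hB0 : B ≠ 0 := by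
    intro h
    rw [h] at h1
    have := ENNReal.ofReal_pos.2 hpos
    exact absurd h1 (not_le.2 this)
  have hBt : B ≠ ∞ := ne_top_of_le_ne_top ENNReal.one_ne_top h2
  have e1 : B ^ s = B ^ t * B ^ (s - t) := by
    rw [← ENNReal.rpow_add _ _ hB0 hBt]
    congr 1
    ring
  rw [e1]
  refine mul_le_mul_right ?_ _
  have e2 : B ^ (s - t) ≤ B ^ (-|t - s|) := by
    refine ENNReal.rpow_le_rpow_of_exponent_ge h2 ?_
    rw [abs_sub_comm]
    exact neg_abs_le _
  refine le_trans e2 ?_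
  have e3 : B ^ (-|t - s|) ≤ (ENNReal.ofReal ((2 : ℝ)⁻¹ ^ j)) ^ (-|t - s|) := by
    rw [ENNReal.rpow_neg, ENNReal.rpow_neg]
    exact ENNReal.inv_le_inv.2 (ENNReal.rpow_le_rpow h1 (abs_nonneg _))
  refine le_trans e3 (le_of_eq ?_)
  rw [ENNReal.ofReal_rpow_of_pos hpos]
  congr 1
  rw [← Real.rpow_natCast, ← Real.rpow_mul (by norm_num), Real.inv_rpow (by norm_num),
    ← Real.rpow_neg (by norm_num)]
  congr 1
  ring

theorem main (hF : S_FRZ) : S_INT := by
  intro n θ hθ hθ1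
  obtain ⟨C, R, hC, hR, hfrz⟩ := hF n θ hθ
  refine ⟨ENNReal.ofReal C, R, ENNReal.ofReal_ne_top, hR, ?_⟩
  intro m j u F B hFm hBm hB hu x
  have hw : Measurable (fun y : E n => eta j (m - R) (x - y)) :=
    (measurable_eta j (m - R)).comp (measurable_const.sub measurable_id)
  have hθ0 := (hθ1 x).1
  have hθ2 : 0 ≤ 1 - θ x := by linarith [(hθ1 x).2]
  calc cv j m u x = ∫⁻ y, eta j m (x - y) * u y := rfl
    _ ≤ ∫⁻ y, ENNReal.ofReal C * ((eta j (m - R) (x - y) * F y) ^ (1 - θ x) *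
        (eta j (m - R) (x - y) * (F y * B y)) ^ θ x) := by
        refine lintegral_mono fun y => ?_
        have e1 : (eta j (m - R) (x - y) * F y) ^ (1 - θ x) *
            (eta j (m - R) (x - y) * (F y * B y)) ^ θ x =
            eta j (m - R) (x - y) * F y * B y ^ θ x := by
          rw [← mul_assoc (eta j (m - R) (x - y)) (F y) (B y), ENNReal.mul_rpow_of_nonneg _ _ hθ0,
            ← mul_assoc, ← ENNReal.rpow_add_of_nonneg _ _ hθ2 hθ0]
          congr 1
          rw [show 1 - θ x + θ x = 1 by ring, ENNReal.rpow_one]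
        rw [e1]
        have e2 : ENNReal.ofReal ((2 : ℝ) ^ ((j : ℝ) * |θ x - θ y|)) ≤
            ENNReal.ofReal C * ENNReal.ofReal ((1 + (2 : ℝ) ^ j * ‖x - y‖) ^ R) := by
          rw [← ENNReal.ofReal_mul (by linarith)]
          exact ENNReal.ofReal_le_ofReal (hfrz j x y)
        calc eta j m (x - y) * u y ≤ eta j m (x - y) * (F y * B y ^ θ y) :=
              mul_le_mul_right (hu y) _
          _ ≤ eta j m (x - y) * (F y * (B y ^ θ x *
              ENNReal.ofReal ((2 : ℝ) ^ ((j : ℝ) * |θ x - θ y|)))) := by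
              refine mul_le_mul_right (mul_le_mul_right ?_ _) _
              exact pow_le (B y) j (hB y).1 (hB y).2 _ _
          _ ≤ eta j m (x - y) * (F y * (B y ^ θ x * (ENNReal.ofReal C *
              ENNReal.ofReal ((1 + (2 : ℝ) ^ j * ‖x - y‖) ^ R)))) := by
              refine mul_le_mul_right (mul_le_mul_right (mul_le_mul_right e2 _) _) _
          _ = ENNReal.ofReal C * ((eta j m (x - y) *
              ENNReal.ofReal ((1 + (2 : ℝ) ^ j * ‖x - y‖) ^ R)) * F y * B y ^ θ x) := by ring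
          _ = ENNReal.ofReal C * (eta j (m - R) (x - y) * F y * B y ^ θ x) := by rw [eta_mul]
    _ = ENNReal.ofReal C * ∫⁻ y, ((eta j (m - R) (x - y) * F y) ^ (1 - θ x) *
        (eta j (m - R) (x - y) * (F y * B y)) ^ θ x) :=
        lintegral_const_mul' _ _ ENNReal.ofReal_ne_top
    _ ≤ _ := by
        refine mul_le_mul_right ?_ _
        refine ENNReal.lintegral_mul_norm_pow_le (hw.mul hFm).aemeasurable
          (hw.mul (hFm.mul hBm)).aemeasurable hθ2 hθ0 (by ring)

end Pool.Agent.Helper29.VT.INT
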