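import Pool.Agent.H25.VT.Spec

/-!
# VT, part MAIN: the convolution inequality in `L_{P(·)}(ℓ_{Q(·)})`
-/

set_option autoImplicit false

open MeasureTheory
open scoped ENNReal

namespace Pool.Agent.Helper29.VT.MAIN

open Pool.Agent.H25.VT

/-- weighted geometric means are at most the sum -/
lemma geom_le (x y : ℝ≥0∞) {t : ℝ} (h0 : 0 ≤ t) (h1 : t ≤ 1) :
    x ^ (1 - t) * y ^ t ≤ x + y := by
  have hm : x ^ (1 - t) * y ^ t ≤ max x y ^ (1 - t) * max x y ^ t :=
    mul_le_mul' (ENNReal.rpow_le_rpow (le_max_left _ _) (by linarith))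
      (ENNReal.rpow_le_rpow (le_max_right _ _) h0)
  rw [← ENNReal.rpow_add_of_nonneg _ _ (by linarith) h0, show 1 - t + t = 1 by ring,
    ENNReal.rpow_one] at hm
  exact le_trans hm (max_le le_self_add le_add_self)

lemma lq_pow_le (q : ℝ≥0∞) (hq : 1 < q) (T : ℕ → ℝ≥0∞) :
    lq q (fun j => T j ^ (q⁻¹).toReal) ≤ (∑' j, T j) ^ (q⁻¹).toReal := by
  unfold lq
  split_ifs with h
  · subst h
    simp
  · have hq0 : q ≠ 0 := (lt_trans one_pos hq).ne'
    have hpos : 0 < q.toReal := ENNReal.toReal_pos hq0 h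
    have e : (q⁻¹).toReal * q.toReal = 1 := by
      rw [ENNReal.toReal_inv]
      exact inv_mul_cancel₀ hpos.ne'
    have e2 : ∀ j, (T j ^ (q⁻¹).toReal) ^ q.toReal = T j := by
      intro j
      rw [← ENNReal.rpow_mul, e, ENNReal.rpow_one]
    simp only [e2]
    rw [ENNReal.toReal_inv, one_div]

theorem main (hMEAS : S_MEAS) (hVM : S_VM) (hDUAL : S_DUAL) (hINT : S_INT) (hDEC : S_DEC)
    (hKER : S_KER) (hLQ : S_LQ) : S_MAIN := by
  intro n P Q a b a' hn hP ha hPab hQ hθ ha' hQa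
  obtain ⟨hmono, hcmul, -, -⟩ := hLQ
  have hQ1 : ∀ x, 1 < Q x := fun x => lt_of_lt_of_le ha' (hQa x)
  have hθ1 : ∀ x, 0 ≤ ((Q x)⁻¹).toReal ∧ ((Q x)⁻¹).toReal < 1 := by
    intro x
    refine ⟨ENNReal.toReal_nonneg, ?_⟩
    have h1 : (Q x)⁻¹ < 1 := ENNReal.inv_lt_one.2 (hQ1 x)
    have := (ENNReal.toReal_lt_toReal (ne_top_of_lt h1) ENNReal.one_ne_top).2 h1
    simpa using this
  obtain ⟨CI, R, hCI, hR, hint⟩ := hINT n (fun x => ((Q x)⁻¹).toReal) hθ.1 hθ1
  refine ⟨R + n, by positivity, ?_⟩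
  intro m hm
  have hm' : (n : ℝ) < m - R := by linarith
  obtain ⟨CK, hCK, hker⟩ := hKER n (m - R) hn hm'
  obtain ⟨KV, hKV0, hKVt, hvm⟩ := hVM n P a b hn hP ha hPab
  obtain ⟨KD, hKD0, hKDt, hdual⟩ := hDUAL n P a b (m - R) hn hP ha hPab hm'
  have hα : CK * KV + KD ≠ ∞ := ENNReal.add_ne_top.2 ⟨ENNReal.mul_ne_top hCK hKVt, hKDt⟩
  have hα0 : CK * KV + KD ≠ 0 := by
    intro h
    exact hKD0 (add_eq_zero.1 h).2
  have hCI1 : CI + 1 ≠ ∞ := ENNReal.add_ne_top.2 ⟨hCI, ENNReal.one_ne_top⟩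
  have hCI0 : CI + 1 ≠ 0 := by simp
  refine ⟨(CI + 1) * (CK * KV + KD) * 2, ?_, ?_, ?_⟩
  · exact mul_ne_zero (mul_ne_zero hCI0 hα0) (by norm_num)
  · exact ENNReal.mul_ne_top (ENNReal.mul_ne_top hCI1 hα) (by norm_num)
  intro u hu hu1
  obtain ⟨hFm, B, hBm, hB1, hB3, hub⟩ := hDEC n Q hQ (fun x => (hQ1 x).le) u hu
  obtain ⟨F, hF⟩ : ∃ F : E n → ℝ≥0∞, F = fun x => lq (Q x) (fun j => u j x) := ⟨_, rfl⟩
  have hFm' : Measurable F := by rw [hF]; exact hFm
  have hF1 : ∫⁻ x, F x ^ P x ≤ 1 := by rw [hF]; exact hu1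
  have hub' : ∀ j x, u j x ≤ F x * B j x ^ ((Q x)⁻¹).toReal := by
    intro j x
    rw [hF]
    exact hub j x
  have hX := hvm F hFm' hF1
  have hY := hdual F B hFm' hBm hB3 hF1
  obtain ⟨G, hG⟩ : ∃ G : E n → ℝ≥0∞,
    G = fun x => ∑' j, cv j (m - R) (fun y => F y * B j y) x := ⟨_, rfl⟩
  have hY' : ∫⁻ x, (G x / KD) ^ P x ≤ 1 := by rw [hG]; exact hY
  -- pointwise
  have hpt : ∀ x, lq (Q x) (fun j => cv j m (u j) x) ≤ CI * (CK * MM F x + G x) := by
    intro x
    have hQ0 : 0 < Q x := lt_trans one_pos (hQ1 x)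
    obtain ⟨t, ht⟩ : ∃ t : ℝ, t = ((Q x)⁻¹).toReal := ⟨_, rfl⟩
    have ht0 : 0 ≤ t := by rw [ht]; exact (hθ1 x).1
    have ht1 : t ≤ 1 := by rw [ht]; exact (hθ1 x).2.le
    have h1 : ∀ j, cv j m (u j) x ≤
        (CI * (CK * MM F x) ^ (1 - t)) * (cv j (m - R) (fun y => F y * B j y) x) ^ t := by
      intro j
      have := hint m j (u j) F (B j) hFm' (hBm j) (hB1 j) (hub' j) x
      rw [ht]
      refine le_trans this ?_
      rw [mul_assoc]
      refine mul_le_mul_right (mul_le_mul_left ?_ _) _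
      rw [← ht]
      exact ENNReal.rpow_le_rpow (hker j F hFm' x) (by linarith)
    calc lq (Q x) (fun j => cv j m (u j) x)
        ≤ lq (Q x) (fun j => (CI * (CK * MM F x) ^ (1 - t)) *
            (cv j (m - R) (fun y => F y * B j y) x) ^ t) := hmono _ _ _ hQ0 h1
      _ = (CI * (CK * MM F x) ^ (1 - t)) *
            lq (Q x) (fun j => (cv j (m - R) (fun y => F y * B j y) x) ^ t) := hcmul _ _ _ hQ0
      _ ≤ (CI * (CK * MM F x) ^ (1 - t)) * (G x) ^ t := by
          refine mul_le_mul_right ?_ _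
          rw [ht, hG]
          exact lq_pow_le (Q x) (hQ1 x) _
      _ = CI * ((CK * MM F x) ^ (1 - t) * (G x) ^ t) := by ring
      _ ≤ CI * (CK * MM F x + G x) := mul_le_mul_right (geom_le _ _ ht0 ht1) _
  have hmX : Measurable (fun x => (MM F x / KV) ^ P x) :=
    ((hMEAS n F hFm').div_const KV).pow hP.1.1.measurable
  calc ∫⁻ x, (lq (Q x) (fun j => cv j m (u j) x) / ((CI + 1) * (CK * KV + KD) * 2)) ^ P x
      ≤ ∫⁻ x, 2⁻¹ * ((MM F x / KV) ^ P x + (G x / KD) ^ P x) := by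
        refine lintegral_mono fun x => ?_
        have hPx : 1 ≤ P x := by linarith [(hPab x).1]
        have hPx0 : 0 ≤ P x := by linarith
        have hmaxle : lq (Q x) (fun j => cv j m (u j) x) / ((CI + 1) * (CK * KV + KD) * 2) ≤
            2⁻¹ * max (MM F x / KV) (G x / KD) := by
          refine ENNReal.div_le_of_le_mul ?_
          have e1 : MM F x = KV * (MM F x / KV) := (ENNReal.mul_div_cancel hKV0 hKVt).symm
          have e2 : G x = KD * (G x / KD) := (ENNReal.mul_div_cancel hKD0 hKDt).symm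
          calc lq (Q x) (fun j => cv j m (u j) x) ≤ CI * (CK * MM F x + G x) := hpt x
            _ ≤ (CI + 1) * (CK * MM F x + G x) := mul_le_mul_left le_self_add _
            _ ≤ (CI + 1) * (CK * KV * max (MM F x / KV) (G x / KD) +
                KD * max (MM F x / KV) (G x / KD)) := by
                refine mul_le_mul_right (add_le_add ?_ ?_) _
                · rw [mul_assoc]
                  refine mul_le_mul_right ?_ _
                  conv_lhs => rw [e1]
                  exact mul_le_mul_right (le_max_left _ _) _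
                · conv_lhs => rw [e2]
                  exact mul_le_mul_right (le_max_right _ _) _
            _ = (2⁻¹ * 2) * (((CI + 1) * (CK * KV + KD)) * max (MM F x / KV) (G x / KD)) := by
                rw [ENNReal.inv_mul_cancel (by norm_num) (by norm_num)]
                ring
            _ = 2⁻¹ * max (MM F x / KV) (G x / KD) * ((CI + 1) * (CK * KV + KD) * 2) := by ring
        refine le_trans (ENNReal.rpow_le_rpow hmaxle hPx0) ?_
        rw [ENNReal.mul_rpow_of_nonneg _ _ hPx0]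
        refine mul_le_mul' ?_ ?_
        · have : (2⁻¹ : ℝ≥0∞) ^ P x ≤ (2⁻¹ : ℝ≥0∞) ^ (1 : ℝ) :=
            ENNReal.rpow_le_rpow_of_exponent_ge (ENNReal.inv_le_one.2 (by norm_num)) hPx
          rwa [ENNReal.rpow_one] at this
        · rcases le_total (MM F x / KV) (G x / KD) with h | h
          · rw [max_eq_right h]
            exact le_add_self
          · rw [max_eq_left h]
            exact le_self_add
    _ = 2⁻¹ * ((∫⁻ x, (MM F x / KV) ^ P x) + ∫⁻ x, (G x / KD) ^ P x) := by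
        rw [lintegral_const_mul' _ _ (by norm_num), lintegral_add_left hmX]
    _ ≤ 2⁻¹ * (1 + 1) := mul_le_mul_right (add_le_add hX hY') _
    _ = 1 := by
        rw [one_add_one_eq_two]
        exact ENNReal.inv_mul_cancel (by norm_num) (by norm_num)

end Pool.Agent.Helper29.VT.MAIN
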