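import Pool.Agent.H25.VT.Spec

/-!
# VT, part VM: the maximal operator on `L_{P(·)}`
-/

set_option autoImplicit false

open MeasureTheory
open scoped ENNReal

namespace Pool.Agent.Helper29.VT.VM

open Pool.Agent.H25.VT

lemma MM_mono {n : ℕ} {f g : E n → ℝ≥0∞} (h : ∀ x, f x ≤ g x) (x : E n) : MM f x ≤ MM g x := by
  unfold MM
  exact iSup₂_mono fun t ht => mul_le_mul_right (lintegral_mono fun y => h y) _

lemma MM_add {n : ℕ} {f g : E n → ℝ≥0∞} (hf : Measurable f) (x : E n) :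
    MM (fun y => f y + g y) x ≤ MM f x + MM g x := by
  unfold MM
  refine iSup₂_le fun t ht => ?_
  rw [lintegral_add_left hf, mul_add]
  refine add_le_add ?_ ?_
  · exact le_iSup₂ (f := fun (t : ℝ) (_ : 0 < t) =>
      (volume (Metric.ball x t))⁻¹ * ∫⁻ y in Metric.ball x t, f y) t ht
  · exact le_iSup₂ (f := fun (t : ℝ) (_ : 0 < t) =>
      (volume (Metric.ball x t))⁻¹ * ∫⁻ y in Metric.ball x t, g y) t ht

lemma MM_le_one {n : ℕ} {f : E n → ℝ≥0∞} (h : ∀ x, f x ≤ 1) (x : E n) : MM f x ≤ 1 := by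
  unfold MM
  refine iSup₂_le fun t ht => ?_
  have h1 : ∫⁻ y in Metric.ball x t, f y ≤ volume (Metric.ball x t) := by
    calc ∫⁻ y in Metric.ball x t, f y ≤ ∫⁻ y in Metric.ball x t, 1 := lintegral_mono fun y => h y
      _ = volume (Metric.ball x t) := by simp
  have h2 : volume (Metric.ball x t) ≠ 0 := (Metric.measure_ball_pos volume x ht).ne'
  have h3 : volume (Metric.ball x t) ≠ ∞ := measure_ball_lt_top.ne
  calc (volume (Metric.ball x t))⁻¹ * ∫⁻ y in Metric.ball x t, f y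
      ≤ (volume (Metric.ball x t))⁻¹ * volume (Metric.ball x t) := mul_le_mul_right h1 _
    _ = 1 := ENNReal.inv_mul_cancel h2 h3

lemma add_pow_le (x y : ℝ≥0∞) {p b : ℝ} (hp : 1 ≤ p) (hpb : p ≤ b) :
    (x + y) ^ p ≤ 2 ^ b * (x ^ p + y ^ p) := by
  refine le_trans (ENNReal.rpow_add_le_mul_rpow_add_rpow x y hp) ?_
  refine mul_le_mul_left ?_ _
  exact ENNReal.rpow_le_rpow_of_exponent_le (by norm_num) (by linarith)

theorem main (hMEAS : S_MEAS) (hHL : S_HL) (hVM1 : S_VM1) (hVM2 : S_VM2) (hPINF : S_PINF) :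
    S_VM := by
  intro n P a b hn hP ha hPab
  obtain ⟨⟨hPc, c, hc⟩, c', Pinf, hc'⟩ := hP
  have hPm : Measurable P := hPc.measurable
  obtain ⟨hi1, hi2⟩ := hPINF n P a b c' Pinf hn hPab hc'
  have ha0 : 0 < a := by linarith
  -- the constants
  have hloc : LogHolderLoc (fun x => P x / a) := by
    refine ⟨hPc.div_const a, c / a, fun x y => ?_⟩
    have := hc x y
    rw [← sub_div, abs_div, abs_of_pos ha0, div_right_comm]
    exact div_le_div_of_nonneg_right this ha0.le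
  obtain ⟨C1, hC1, h1⟩ := hVM1 n (fun x => P x / a) hn hloc
    (fun x => by rw [le_div_iff₀ ha0]; linarith [(hPab x).1])
  obtain ⟨C2, w, hC2, hwm, hw, h2⟩ := hVM2 n P a b c' Pinf hn ha hPab hi1 hi2 hc'
  obtain ⟨A1, hA1, hHL1⟩ := hHL n a hn ha
  obtain ⟨A2, hA2, hHL2⟩ := hHL n Pinf hn (by linarith)
  obtain ⟨D, hD⟩ : ∃ D : ℝ≥0∞, D = 2 ^ b * (C1 ^ a * A1 + (C2 * (A2 * (C2 + C2)) + C2)) :=
    ⟨_, rfl⟩
  have hDt : D ≠ ∞ := by
    rw [hD]
    refine ENNReal.mul_ne_top ?_ (ENNReal.add_ne_top.2 ⟨ENNReal.mul_ne_top ?_ hA1,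
      ENNReal.add_ne_top.2 ⟨ENNReal.mul_ne_top hC2 (ENNReal.mul_ne_top hA2
        (ENNReal.add_ne_top.2 ⟨hC2, hC2⟩)), hC2⟩⟩)
    · exact (ENNReal.rpow_lt_top_of_nonneg (by linarith [(hPab 0).1, (hPab 0).2])
        (by norm_num)).ne
    · exact (ENNReal.rpow_lt_top_of_nonneg ha0.le hC1).ne
  have key : ∀ f : E n → ℝ≥0∞, Measurable f → ∫⁻ x, f x ^ P x ≤ 1 →
      ∫⁻ x, MM f x ^ P x ≤ D := by
    intro f hf hf1
    -- the two parts
    have hs : MeasurableSet {x | 1 ≤ f x} := measurableSet_le measurable_const hf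
    obtain ⟨f1, hf1d⟩ : ∃ f1 : E n → ℝ≥0∞, f1 = Set.indicator {x | 1 ≤ f x} f := ⟨_, rfl⟩
    obtain ⟨f2, hf2d⟩ : ∃ f2 : E n → ℝ≥0∞, f2 = Set.indicator {x | 1 ≤ f x}ᶜ f := ⟨_, rfl⟩
    have hf1m : Measurable f1 := by rw [hf1d]; exact hf.indicator hs
    have hf2m : Measurable f2 := by rw [hf2d]; exact hf.indicator hs.compl
    have hsum : ∀ x, f x ≤ f1 x + f2 x := by
      intro x
      rw [hf1d, hf2d]
      by_cases hx : 1 ≤ f x
      · rw [Set.indicator_of_mem (show x ∈ {x | 1 ≤ f x} from hx)]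
        exact le_self_add
      · rw [Set.indicator_of_mem (s := {x | 1 ≤ f x}ᶜ) (show x ∈ {x | 1 ≤ f x}ᶜ from hx)]
        exact le_add_self
    have hle1 : ∀ x, f1 x ≤ f x := by
      intro x
      rw [hf1d]
      exact Set.indicator_le_self _ _ x
    have hle2 : ∀ x, f2 x ≤ f x := by
      intro x
      rw [hf2d]
      exact Set.indicator_le_self _ _ x
    have hval1 : ∀ x, f1 x = 0 ∨ 1 ≤ f1 x := by
      intro x
      rw [hf1d]
      by_cases hx : 1 ≤ f x
      · right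
        rw [Set.indicator_of_mem (show x ∈ {x | 1 ≤ f x} from hx)]
        exact hx
      · left
        have hnx : x ∉ ({x | 1 ≤ f x} : Set (E n)) := hx
        exact Set.indicator_of_notMem hnx f
    have hval2 : ∀ x, f2 x ≤ 1 := by
      intro x
      rw [hf2d]
      by_cases hx : 1 ≤ f x
      · have hnx : x ∉ ({x | 1 ≤ f x}ᶜ : Set (E n)) := fun h => h hx
        rw [Set.indicator_of_notMem hnx f]
        exact zero_le
      · rw [Set.indicator_of_mem (s := {x | 1 ≤ f x}ᶜ) (show x ∈ {x | 1 ≤ f x}ᶜ from hx)]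
        exact (not_le.1 hx).le
    have hP0 : ∀ x, 0 ≤ P x := fun x => by linarith [(hPab x).1]
    have hpw : ∀ x, MM f x ^ P x ≤ 2 ^ b * (MM f1 x ^ P x + MM f2 x ^ P x) := by
      intro x
      refine le_trans (ENNReal.rpow_le_rpow (le_trans (MM_mono hsum x) (MM_add hf1m x)) (hP0 x)) ?_
      exact add_pow_le _ _ (by linarith [(hPab x).1]) (hPab x).2
    have hm1 : Measurable (fun x => MM f1 x ^ P x) := (hMEAS n f1 hf1m).pow hPm
    have hm2 : Measurable (fun x => MM f2 x ^ P x) := (hMEAS n f2 hf2m).pow hPm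
    -- part 1
    have hpart1 : ∫⁻ x, MM f1 x ^ P x ≤ C1 ^ a * A1 := by
      have hfa : ∫⁻ x, f1 x ^ (P x / a) ≤ 1 := by
        refine le_trans (lintegral_mono fun x => ?_) hf1
        rcases hval1 x with h0 | h0
        · rw [h0, ENNReal.zero_rpow_of_pos (div_pos (by linarith [(hPab x).1]) ha0)]
          exact zero_le
        · refine le_trans (ENNReal.rpow_le_rpow_of_exponent_le h0 ?_)
            (ENNReal.rpow_le_rpow (hle1 x) (hP0 x))
          rw [div_le_iff₀ ha0]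
          nlinarith [(hPab x).1]
      have h1' := h1 f1 hf1m hval1 hfa
      have hg : Measurable (fun y => f1 y ^ (P y / a)) := hf1m.pow (hPm.div_const a)
      calc ∫⁻ x, MM f1 x ^ P x ≤ ∫⁻ x, C1 ^ a * MM (fun y => f1 y ^ (P y / a)) x ^ a := by
            refine lintegral_mono fun x => ?_
            have e : MM f1 x ^ P x = (MM f1 x ^ (P x / a)) ^ a := by
              rw [← ENNReal.rpow_mul, div_mul_cancel₀ _ ha0.ne']
            rw [e, ← ENNReal.mul_rpow_of_nonneg _ _ ha0.le]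
            exact ENNReal.rpow_le_rpow (h1' x) ha0.le
        _ = C1 ^ a * ∫⁻ x, MM (fun y => f1 y ^ (P y / a)) x ^ a :=
            lintegral_const_mul' _ _ (ENNReal.rpow_lt_top_of_nonneg ha0.le hC1).ne
        _ ≤ C1 ^ a * (A1 * ∫⁻ x, (f1 x ^ (P x / a)) ^ a) := mul_le_mul_right (hHL1 _ hg) _
        _ ≤ C1 ^ a * (A1 * 1) := by
            refine mul_le_mul_right (mul_le_mul_right ?_ _) _
            refine le_trans (lintegral_mono fun x => ?_) hf1
            rw [← ENNReal.rpow_mul, div_mul_cancel₀ _ ha0.ne']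
            exact ENNReal.rpow_le_rpow (hle1 x) (hP0 x)
        _ = C1 ^ a * A1 := by rw [mul_one]
    -- part 2
    have hpart2 : ∫⁻ x, MM f2 x ^ P x ≤ C2 * (A2 * (C2 + C2)) + C2 := by
      have hMM2 : ∀ x, MM f2 x ≤ 1 := MM_le_one hval2
      have hmi : Measurable (fun x => MM f2 x ^ Pinf) := (hMEAS n f2 hf2m).pow_const _
      calc ∫⁻ x, MM f2 x ^ P x ≤ ∫⁻ x, (C2 * MM f2 x ^ Pinf + w x) :=
            lintegral_mono fun x => (h2 (MM f2 x) x (hMM2 x)).1
        _ = C2 * (∫⁻ x, MM f2 x ^ Pinf) + ∫⁻ x, w x := by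
            rw [lintegral_add_right _ hwm, lintegral_const_mul' _ _ hC2]
        _ ≤ C2 * (A2 * ∫⁻ x, f2 x ^ Pinf) + C2 :=
            add_le_add (mul_le_mul_right (hHL2 f2 hf2m) _) hw
        _ ≤ C2 * (A2 * (C2 + C2)) + C2 := by
            refine add_le_add (mul_le_mul_right (mul_le_mul_right ?_ _) _) le_rfl
            calc ∫⁻ x, f2 x ^ Pinf ≤ ∫⁻ x, (C2 * f2 x ^ P x + w x) :=
                  lintegral_mono fun x => (h2 (f2 x) x (hval2 x)).2
              _ = C2 * (∫⁻ x, f2 x ^ P x) + ∫⁻ x, w x := by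
                  rw [lintegral_add_right _ hwm, lintegral_const_mul' _ _ hC2]
              _ ≤ C2 * 1 + C2 := by
                  refine add_le_add (mul_le_mul_right ?_ _) hw
                  refine le_trans (lintegral_mono fun x => ?_) hf1
                  exact ENNReal.rpow_le_rpow (hle2 x) (hP0 x)
              _ = C2 + C2 := by rw [mul_one]
    calc ∫⁻ x, MM f x ^ P x ≤ ∫⁻ x, 2 ^ b * (MM f1 x ^ P x + MM f2 x ^ P x) :=
          lintegral_mono hpw
      _ = 2 ^ b * ((∫⁻ x, MM f1 x ^ P x) + ∫⁻ x, MM f2 x ^ P x) := by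
          have hb2 : (2 : ℝ≥0∞) ^ b ≠ ∞ := (ENNReal.rpow_lt_top_of_nonneg
            (by linarith [(hPab 0).1, (hPab 0).2]) (by norm_num)).ne
          rw [lintegral_const_mul' _ _ hb2, lintegral_add_left hm1]
      _ ≤ D := by
          rw [hD]
          exact mul_le_mul_right (add_le_add hpart1 hpart2) _
  refine ⟨D + 1, by simp, ENNReal.add_ne_top.2 ⟨hDt, ENNReal.one_ne_top⟩, ?_⟩
  intro f hf hf1
  have hK1 : (1 : ℝ≥0∞) ≤ D + 1 := le_add_self
  have hKt : D + 1 ≠ ∞ := ENNReal.add_ne_top.2 ⟨hDt, ENNReal.one_ne_top⟩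
  have hK0 : D + 1 ≠ 0 := by simp
  calc ∫⁻ x, (MM f x / (D + 1)) ^ P x ≤ ∫⁻ x, (D + 1)⁻¹ * MM f x ^ P x := by
        refine lintegral_mono fun x => ?_
        have hPx : 1 ≤ P x := by linarith [(hPab x).1]
        rw [div_eq_mul_inv, ENNReal.mul_rpow_of_nonneg _ _ (by linarith), mul_comm]
        refine mul_le_mul_left ?_ _
        have : (D + 1)⁻¹ ^ P x ≤ (D + 1)⁻¹ ^ (1 : ℝ) :=
          ENNReal.rpow_le_rpow_of_exponent_ge (ENNReal.inv_le_one.2 hK1) hPx
        rwa [ENNReal.rpow_one] at this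
    _ = (D + 1)⁻¹ * ∫⁻ x, MM f x ^ P x := lintegral_const_mul' _ _ (ENNReal.inv_ne_top.2 hK0)
    _ ≤ (D + 1)⁻¹ * (D + 1) := mul_le_mul_right (le_trans (key f hf hf1) le_self_add) _
    _ = 1 := ENNReal.inv_mul_cancel hK0 hKt

end Pool.Agent.Helper29.VT.VM
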